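import Mathlib

/-!
# Expansion: the points all of whose multiples stay near a finite invariant set
-/

set_option autoImplicit false

namespace Pool.Agent.Helper88.AG

theorem exists_rep (X : AddCircle (1 : ℝ)) : ∃ x : ℝ, (x : AddCircle (1 : ℝ)) = X ∧ |x| = ‖X‖ ∧ |x| ≤ 1 / 2 := by
  obtain ⟨y, rfl⟩ := QuotientAddGroup.mk_surjective X
  refine ⟨y - round y, ?_, ?_, ?_⟩
  · have : (((round y : ℤ) : ℝ) : AddCircle (1 : ℝ)) = 0 := by
      rw [AddCircle.coe_eq_zero_iff]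
      exact ⟨round y, by simp⟩
    change ((y - (round y : ℤ) : ℝ) : AddCircle (1 : ℝ)) = (y : AddCircle (1 : ℝ))
    rw [AddCircle.coe_sub, this, sub_zero]
  · have := AddCircle.norm_eq (p := (1 : ℝ)) (x := y)
    rw [inv_one, one_mul, mul_one] at this
    exact this.symm
  · exact abs_sub_round y

theorem norm_two (X : AddCircle (1 : ℝ)) (h : ‖X‖ ≤ 1 / 4) : ‖(2 : ℕ) • X‖ = 2 * ‖X‖ := by
  obtain ⟨x, rfl, hx, -⟩ := exists_rep X
  rw [← hx] at h ⊢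
  have h1 : (2 : ℕ) • (x : AddCircle (1 : ℝ)) = ((2 * x : ℝ) : AddCircle (1 : ℝ)) := by
    rw [← AddCircle.coe_nsmul, nsmul_eq_mul]
    norm_num
  rw [h1, (AddCircle.norm_coe_eq_abs_iff (p := (1 : ℝ)) one_ne_zero).2, abs_mul]
  · norm_num
  · rw [abs_mul]
    norm_num
    linarith

/-- The points of a finite set are separated. -/
theorem exists_sep (F : Set (AddCircle (1 : ℝ))) (hF : F.Finite) :
    ∃ d > 0, d ≤ 1 / 8 ∧ ∀ f ∈ F, ∀ f' ∈ F, ‖f - f'‖ ≤ 3 * d → f = f' := by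
  classical
  have hfin : ((fun p : AddCircle (1 : ℝ) × AddCircle (1 : ℝ) => ‖p.1 - p.2‖) ''
      ((F ×ˢ F) ∩ {p | p.1 ≠ p.2})).Finite := ((hF.prod hF).inter_of_left _).image _
  rcases Set.eq_empty_or_nonempty ((fun p : AddCircle (1 : ℝ) × AddCircle (1 : ℝ) => ‖p.1 - p.2‖) ''
      ((F ×ˢ F) ∩ {p | p.1 ≠ p.2})) with he | hne
  · refine ⟨1 / 8, by norm_num, le_rfl, fun f hf f' hf' _ => ?_⟩
    by_contra hc
    have : ‖f - f'‖ ∈ ((fun p : AddCircle (1 : ℝ) × AddCircle (1 : ℝ) => ‖p.1 - p.2‖) ''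
      ((F ×ˢ F) ∩ {p | p.1 ≠ p.2})) := ⟨(f, f'), ⟨⟨hf, hf'⟩, hc⟩, rfl⟩
    rw [he] at this
    exact this
  · obtain ⟨m, hm, hmin⟩ := hfin.exists_minimal hne
    obtain ⟨⟨a, b⟩, ⟨-, hab⟩, hm'⟩ := hm
    have hm0 : 0 < m := by
      rw [← hm']
      exact norm_pos_iff.2 (sub_ne_zero.2 hab)
    refine ⟨min (1 / 8) (m / 4), by positivity, min_le_left _ _, fun f hf f' hf' h => ?_⟩
    by_contra hc
    have hmem : ‖f - f'‖ ∈ ((fun p : AddCircle (1 : ℝ) × AddCircle (1 : ℝ) => ‖p.1 - p.2‖) ''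
      ((F ×ˢ F) ∩ {p | p.1 ≠ p.2})) := ⟨(f, f'), ⟨⟨hf, hf'⟩, hc⟩, rfl⟩
    have h1 := min_le_right (1 / 8) (m / 4)
    rcases le_total m ‖f - f'‖ with hle | hle
    · linarith
    · have := hmin hmem hle
      linarith

/-- **Expansion.** If all the multiples `2 ^ i • t` with `2 ^ i * r ≤ e` are near the finite
invariant set `F` then `t` is at distance `O(r)` from `F`. -/
theorem expand (F : Set (AddCircle (1 : ℝ))) (hF : F.Finite) (h2 : ∀ f ∈ F, (2 : ℕ) • f ∈ F) :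
    ∃ d > 0, ∀ d' ≤ d, ∀ e > 0, ∀ (t : AddCircle (1 : ℝ)) (r : ℝ), 0 < r → r ≤ e →
      (∀ i : ℕ, 2 ^ i * r ≤ e → ∃ f ∈ F, ‖(2 ^ i : ℕ) • t - f‖ ≤ d') →
      ∃ f ∈ F, ‖t - f‖ ≤ (2 * d' / e) * r := by
  obtain ⟨d, hd, hd8, hsep⟩ := exists_sep F hF
  refine ⟨d, hd, fun d' hd' e he t r hr hre h => ?_⟩
  obtain ⟨f₀, hf₀, hf₀t⟩ := h 0 (by simpa using hre)
  simp only [pow_zero, one_smul] at hf₀t
  have hinv : ∀ i : ℕ, (2 ^ i : ℕ) • f₀ ∈ F := by
    intro i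
    induction i with
    | zero => simpa using hf₀
    | succ i ih =>
      have := h2 _ ih
      rwa [smul_smul, mul_comm, ← pow_succ] at this
  have key : ∀ i : ℕ, 2 ^ i * r ≤ e → ‖(2 ^ i : ℕ) • (t - f₀)‖ ≤ d' ∧
      2 ^ i * ‖t - f₀‖ = ‖(2 ^ i : ℕ) • (t - f₀)‖ := by
    intro i
    induction i with
    | zero => intro _; simpa using hf₀t
    | succ i ih =>
      intro hi
      have hi' : 2 ^ i * r ≤ e := by
        refine le_trans ?_ hi
        rw [pow_succ]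
        nlinarith [show (0 : ℝ) < 2 ^ i by positivity]
      obtain ⟨h3, h4⟩ := ih hi'
      have h5 : (2 ^ (i + 1) : ℕ) • (t - f₀) = (2 : ℕ) • ((2 ^ i : ℕ) • (t - f₀)) := by
        rw [smul_smul, mul_comm, ← pow_succ]
      have h6 : ‖(2 : ℕ) • ((2 ^ i : ℕ) • (t - f₀))‖ = 2 * ‖(2 ^ i : ℕ) • (t - f₀)‖ :=
        norm_two _ (by linarith)
      obtain ⟨f, hf, hft⟩ := h (i + 1) hi
      have h7 : f = (2 ^ (i + 1) : ℕ) • f₀ := by
        refine hsep f hf _ (hinv (i + 1)) ?_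
        have e1 : f - (2 ^ (i + 1) : ℕ) • f₀ =
            (2 ^ (i + 1) : ℕ) • (t - f₀) - ((2 ^ (i + 1) : ℕ) • t - f) := by
          rw [smul_sub]
          abel
        rw [e1]
        refine (norm_sub_le _ _).trans ?_
        rw [h5, h6]
        linarith
      refine ⟨?_, ?_⟩
      · rw [smul_sub, ← h7]
        exact hft
      · rw [h5, h6, ← h4, pow_succ]
        ring
  -- the largest `i`
  have hex : ∃ n : ℕ, e < 2 ^ n * r := by
    obtain ⟨n, hn⟩ := pow_unbounded_of_one_lt (e / r) (one_lt_two : (1 : ℝ) < 2)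
    exact ⟨n, by rwa [div_lt_iff₀ hr] at hn⟩
  classical
  have hn1 : Nat.find hex ≠ 0 := by
    intro h0
    have := Nat.find_spec hex
    rw [h0, pow_zero, one_mul] at this
    linarith
  obtain ⟨i, hi⟩ := Nat.exists_eq_succ_of_ne_zero hn1
  have hs := Nat.find_spec hex
  have hi' : 2 ^ i * r ≤ e := by
    have := Nat.find_min hex (m := i) (by omega)
    exact not_lt.1 this
  obtain ⟨h3, h4⟩ := key i hi'
  refine ⟨f₀, hf₀, ?_⟩
  rw [hi, Nat.succ_eq_add_one, pow_succ] at hs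
  have hp : (0 : ℝ) < 2 ^ i := by positivity
  have hd0 : 0 ≤ d' := (norm_nonneg _).trans h3
  have h8 : ‖t - f₀‖ ≤ d' / 2 ^ i := by
    rw [le_div_iff₀ hp, mul_comm, h4]
    exact h3
  refine h8.trans ?_
  rw [div_le_iff₀ hp, div_mul_eq_mul_div, div_mul_eq_mul_div, le_div_iff₀ he]
  nlinarith

end Pool.Agent.Helper88.AG
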