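import Mathlib

/-!
# Overlaps with almost all translates see only the Lebesgue part
-/

set_option autoImplicit false

open MeasureTheory

namespace Pool.Agent.Helper88.AG

/-- Lebesgue decomposition of a measure which is invariant under `x ↦ 2 x`. -/
theorem decomp (μ : Measure (AddCircle (1 : ℝ))) [IsProbabilityMeasure μ]
    (h2 : μ.map (fun x => (2 : ℕ) • x) = μ) :
    ∃ (a : ENNReal) (σ : Measure (AddCircle (1 : ℝ))), a ≤ 1 ∧ IsFiniteMeasure σ ∧
      μ = a • volume + σ ∧ Measure.MutuallySingular σ volume := by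
  have herg : Ergodic (fun y : AddCircle (1 : ℝ) => (2 : ℕ) • y) volume :=
    AddCircle.ergodic_nsmul one_lt_two
  have hmeas : Measurable (fun y : AddCircle (1 : ℝ) => (2 : ℕ) • y) := herg.measurable
  have hmp : MeasurePreserving (fun y : AddCircle (1 : ℝ) => (2 : ℕ) • y) μ μ := ⟨hmeas, h2⟩
  have hw := hmp.withDensity_rnDeriv herg.toMeasurePreserving
  have hdec := Measure.rnDeriv_add_singularPart μ (volume : Measure (AddCircle (1 : ℝ)))
  have hfin : IsFiniteMeasure ((volume : Measure (AddCircle (1 : ℝ))).withDensity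
      (μ.rnDeriv volume)) := by
    refine ⟨lt_of_le_of_lt ?_ (measure_lt_top μ Set.univ)⟩
    conv_rhs => rw [← hdec]
    simp
  obtain ⟨a, ha⟩ := herg.eq_smul_of_absolutelyContinuous hw (withDensity_absolutelyContinuous _ _)
  refine ⟨a, μ.singularPart volume, ?_, inferInstance, ?_, Measure.mutuallySingular_singularPart _ _⟩
  · have h1 : (a • (volume : Measure (AddCircle (1 : ℝ)))) Set.univ ≤ μ Set.univ := by
      rw [← ha]
      conv_rhs => rw [← hdec]
      simp
    simpa using h1
  · rw [← ha]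
    exact hdec.symm

/-- For almost all `t` the overlap of `μ` with its translate by `t` is at most the Lebesgue part. -/
theorem overlap_le (μ : Measure (AddCircle (1 : ℝ))) [IsProbabilityMeasure μ] (a : ENNReal)
    (σ : Measure (AddCircle (1 : ℝ))) [IsFiniteMeasure σ] (hμ : μ = a • volume + σ)
    (hσ : Measure.MutuallySingular σ volume) :
    ∀ᵐ t ∂(volume : Measure (AddCircle (1 : ℝ))), ∀ π : Measure (AddCircle (1 : ℝ) × AddCircle (1 : ℝ)),
      π.map Prod.fst = μ → π.map Prod.snd = μ → π {p | ‖p.2 - p.1 - t‖ ≤ 0} ≤ a := by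
  obtain ⟨s, hs, hσs, hvs⟩ := hσ
  have hN : MeasurableSet sᶜ := hs.compl
  -- almost all translates of the null set are `σ`-null
  have h1 : ((volume : Measure (AddCircle (1 : ℝ))).prod σ) {p | p.2 + p.1 ∈ sᶜ} = 0 := by
    have hm : MeasurableSet {p : AddCircle (1 : ℝ) × AddCircle (1 : ℝ) | p.2 + p.1 ∈ sᶜ} :=
      (measurable_snd.add measurable_fst) hN
    rw [← Measure.prod_swap, Measure.map_apply measurable_swap hm, Measure.measure_prod_null
      (measurable_swap hm)]
    refine Filter.Eventually.of_forall fun x => ?_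
    have e : (Prod.mk x ⁻¹' (Prod.swap ⁻¹' {p : AddCircle (1 : ℝ) × AddCircle (1 : ℝ) | p.2 + p.1 ∈ sᶜ})) =
        (fun t => x + t) ⁻¹' sᶜ := by
      ext t
      simp
    simp only [Pi.zero_apply]
    rw [e, measure_preimage_add]
    exact hvs
  have h2 := Measure.measure_ae_null_of_prod_null h1
  filter_upwards [h2] with t ht π hπ1 hπ2
  have ht' : σ {x | x + t ∈ sᶜ} = 0 := ht
  have hsub : {p : AddCircle (1 : ℝ) × AddCircle (1 : ℝ) | ‖p.2 - p.1 - t‖ ≤ 0} ⊆
      (Prod.snd ⁻¹' s) ∪ (Prod.fst ⁻¹' {x | x + t ∈ sᶜ}) := by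
    rintro ⟨x, y⟩ hp
    have hp' : y - x - t = 0 := norm_le_zero_iff.1 hp
    have hy : y = x + t := by
      rw [sub_sub, sub_eq_zero] at hp'
      exact hp'
    by_cases hys : y ∈ s
    · exact Or.inl hys
    · right
      change x + t ∈ sᶜ
      rw [← hy]
      exact hys
  have hm2 : MeasurableSet {x : AddCircle (1 : ℝ) | x + t ∈ sᶜ} := (measurable_id.add_const t) hN
  calc π {p | ‖p.2 - p.1 - t‖ ≤ 0} ≤ π (Prod.snd ⁻¹' s) + π (Prod.fst ⁻¹' {x | x + t ∈ sᶜ}) :=
        (measure_mono hsub).trans (measure_union_le _ _)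
    _ = μ s + μ {x | x + t ∈ sᶜ} := by
        rw [← Measure.map_apply measurable_snd hs, ← Measure.map_apply measurable_fst hm2, hπ1, hπ2]
    _ ≤ a := by
        have e1 : μ s ≤ a := by
          rw [hμ, Measure.add_apply, Measure.smul_apply, hσs, add_zero, smul_eq_mul]
          calc a * volume s ≤ a * 1 := by
                gcongr
                refine (measure_mono (Set.subset_univ _)).trans ?_
                rw [AddCircle.measure_univ, ENNReal.ofReal_one]
            _ = a := mul_one a
        have e2 : μ {x | x + t ∈ sᶜ} = 0 := by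
          rw [hμ, Measure.add_apply, Measure.smul_apply, ht', add_zero]
          have : (volume : Measure (AddCircle (1 : ℝ))) {x | x + t ∈ sᶜ} = 0 := by
            have := measure_preimage_add_right (volume : Measure (AddCircle (1 : ℝ))) t sᶜ
            rw [hvs] at this
            exact this
          rw [this, smul_zero]
        rw [e2, add_zero]
        exact e1

/-- If `μ` overlaps with all its translates then it contains a multiple of Lebesgue measure. -/
theorem le_of_overlap (μ : Measure (AddCircle (1 : ℝ))) [IsProbabilityMeasure μ]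
    (h2 : μ.map (fun x => (2 : ℕ) • x) = μ) (h : ENNReal)
    (hp : ∀ t, ∃ π : Measure (AddCircle (1 : ℝ) × AddCircle (1 : ℝ)),
      π.map Prod.fst = μ ∧ π.map Prod.snd = μ ∧ h ≤ π {p | ‖p.2 - p.1 - t‖ ≤ 0}) :
    h • (volume : Measure (AddCircle (1 : ℝ))) ≤ μ := by
  obtain ⟨a, σ, -, hfin, hμ, hσ⟩ := decomp μ h2
  have h3 := overlap_le μ a σ hμ hσ
  obtain ⟨t, ht⟩ := h3.exists
  obtain ⟨π, hπ1, hπ2, hh⟩ := hp t
  have hha : h ≤ a := hh.trans (ht π hπ1 hπ2)
  rw [hμ]
  calc h • (volume : Measure (AddCircle (1 : ℝ))) ≤ a • volume := by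
        intro s
        simp only [Measure.smul_apply, smul_eq_mul]
        gcongr
    _ ≤ a • volume + σ := Measure.le_add_right le_rfl

end Pool.Agent.Helper88.AG
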