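import Pool.Agent.Helper26.AG.Olap
import Pool.Agent.Helper88.AG.Leb
import Pool.Agent.Helper88.AG.Exp
import Pool.Agent.Helper17.Furstenberg

/-!
# The popular differences form a finite set, and irrational translates are singular
-/

set_option autoImplicit false

open MeasureTheory Filter Topology

namespace Pool.Agent.Helper88.AG

open Helper26.AG (Tor Pop)

/-- If all differences are popular then `μ` contains a multiple of Lebesgue measure. -/
theorem le_of_pop (μ : Measure Tor) [IsProbabilityMeasure μ]
    (h2 : μ.map (fun x => (2 : ℕ) • x) = μ) (h : ℝ) (hp : ∀ t, Pop μ h t 0) :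
    ENNReal.ofReal h • (volume : Measure Tor) ≤ μ := by
  refine le_of_overlap μ h2 _ fun t => ?_
  obtain ⟨π, h0, h1, h2', h3⟩ := hp t
  refine ⟨π, h1, h2', ?_⟩
  rw [ENNReal.ofReal_le_iff_le_toReal (measure_ne_top _ _)]
  exact h3

/-- Almost no difference is popular, beyond the Lebesgue part. -/
theorem pop_ae (μ : Measure Tor) [IsProbabilityMeasure μ] (a : ENNReal)
    (σ : Measure Tor) [IsFiniteMeasure σ] (hμ : μ = a • volume + σ)
    (hσ : Measure.MutuallySingular σ volume) :
    ∀ᵐ t ∂(volume : Measure Tor), ∀ h, Pop μ h t 0 → ENNReal.ofReal h ≤ a := by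
  filter_upwards [overlap_le μ a σ hμ hσ] with t ht h hp
  obtain ⟨π, h0, h1, h2', h3⟩ := hp
  refine le_trans ?_ (ht π h1 h2')
  rw [ENNReal.ofReal_le_iff_le_toReal (measure_ne_top _ _)]
  exact h3

/-- **Dichotomy.** Either `μ` contains `h` times Lebesgue measure or the set of the differences which
are popular at level `h` is finite. -/
theorem finite_pop (μ : Measure Tor) [IsProbabilityMeasure μ]
    (h2 : μ.map (fun x => (2 : ℕ) • x) = μ) (h3 : μ.map (fun x => (3 : ℕ) • x) = μ) (h : ℝ)
    (hno : ¬ ENNReal.ofReal h • (volume : Measure Tor) ≤ μ) : {t | Pop μ h t 0}.Finite := by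
  by_contra hinf
  refine hno (le_of_pop μ h2 h fun t => ?_)
  have hcl : IsClosed {t | Pop μ h t 0} := by
    refine isClosed_of_closure_subset fun t ht => ?_
    rw [mem_closure_iff_seq_limit] at ht
    obtain ⟨x, hx, hxt⟩ := ht
    obtain ⟨M, hM⟩ : ∃ M : ProbabilityMeasure Tor, (M : Measure Tor) = μ := ⟨⟨μ, inferInstance⟩, rfl⟩
    have hμ : Tendsto (fun _ : ℕ => M) atTop (𝓝 M) := tendsto_const_nhds
    subst hM
    exact Pop.of_tendsto hμ tendsto_const_nhds hxt tendsto_const_nhds
      (Frequently.of_forall fun n => hx n)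
  have hu := Helper17.Furst.furstenberg hcl (fun x hx => ?_) (fun x hx => ?_) hinf
  · have : t ∈ {t | Pop μ h t 0} := by rw [hu]; trivial
    exact this
  · have := Pop.smul 2 h2 (show Pop μ h x 0 from hx)
    rwa [mul_zero] at this
  · have := Pop.smul 3 h3 (show Pop μ h x 0 from hx)
    rwa [mul_zero] at this

/-- A measure with small marginals extends to a coupling. -/
theorem exists_coupling {X Y : Type*} [MeasurableSpace X] [MeasurableSpace Y] (μ : Measure X)
    (ν : Measure Y) [IsProbabilityMeasure μ] [IsProbabilityMeasure ν] (π₀ : Measure (X × Y))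
    (h1 : π₀.map Prod.fst ≤ μ) (h2 : π₀.map Prod.snd ≤ ν) :
    ∃ π : Measure (X × Y), IsProbabilityMeasure π ∧ π.map Prod.fst = μ ∧ π.map Prod.snd = ν ∧
      π₀ ≤ π := by
  have hu1 : π₀.map Prod.fst Set.univ = π₀ Set.univ := by
    rw [Measure.map_apply measurable_fst MeasurableSet.univ, Set.preimage_univ]
  have hu2 : π₀.map Prod.snd Set.univ = π₀ Set.univ := by
    rw [Measure.map_apply measurable_snd MeasurableSet.univ, Set.preimage_univ]
  have hfin : IsFiniteMeasure π₀ := by
    refine ⟨?_⟩
    rw [← hu1]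
    exact (h1 _).trans_lt (measure_lt_top μ _)
  have ha := Measure.sub_add_cancel_of_le h1
  have hb := Measure.sub_add_cancel_of_le h2
  set α := μ - π₀.map Prod.fst with hα
  set β := ν - π₀.map Prod.snd with hβ
  have hau : α Set.univ + π₀ Set.univ = 1 := by
    rw [← hu1, ← Measure.add_apply, ha, measure_univ]
  have hbu : β Set.univ + π₀ Set.univ = 1 := by
    rw [← hu2, ← Measure.add_apply, hb, measure_univ]
  have hab : β Set.univ = α Set.univ := by
    have := hau.trans hbu.symm
    rw [ENNReal.add_left_inj (measure_ne_top _ _)] at this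
    exact this.symm
  have hαfin : IsFiniteMeasure α := ⟨by
    refine lt_of_le_of_lt ?_ ENNReal.one_lt_top
    rw [← hau]
    exact le_self_add⟩
  have hβfin : IsFiniteMeasure β := ⟨by rw [hab]; exact measure_lt_top α _⟩
  by_cases hc : α Set.univ = 0
  · refine ⟨π₀, ⟨?_⟩, ?_, ?_, le_rfl⟩
    · rw [hc, zero_add] at hau
      exact hau
    · rw [Measure.measure_univ_eq_zero.1 hc, zero_add] at ha
      exact ha
    · rw [Measure.measure_univ_eq_zero.1 (hab.trans hc), zero_add] at hb
      exact hb
  · have hct : α Set.univ ≠ ⊤ := measure_ne_top _ _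
    have hfst : (π₀ + (α Set.univ)⁻¹ • α.prod β).map Prod.fst = μ := by
      rw [Measure.map_add _ _ measurable_fst, Measure.map_smul, Measure.map_fst_prod, hab, smul_smul,
        ENNReal.inv_mul_cancel hc hct, one_smul, add_comm]
      exact ha
    have hsnd : (π₀ + (α Set.univ)⁻¹ • α.prod β).map Prod.snd = ν := by
      rw [Measure.map_add _ _ measurable_snd, Measure.map_smul, Measure.map_snd_prod, smul_smul,
        ENNReal.inv_mul_cancel hc hct, one_smul, add_comm]
      exact hb
    refine ⟨_, ⟨?_⟩, hfst, hsnd, Measure.le_add_right le_rfl⟩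
    rw [← Set.preimage_univ (f := Prod.fst (α := X) (β := Y)), ← Measure.map_apply measurable_fst
      MeasurableSet.univ, hfst, measure_univ]

/-- A measure below `μ` and below its translate gives a popular difference. -/
theorem pop_of_le (μ : Measure Tor) [IsProbabilityMeasure μ] (t : Tor) (ρ : Measure Tor)
    (h1 : ρ ≤ μ) (h2 : ρ ≤ μ.map (fun x => x + t)) : Pop μ (ρ.real Set.univ) t 0 := by
  have hm : Measurable (fun y : Tor => (y - t, y)) :=
    (measurable_id.sub_const t).prodMk measurable_id
  have ht : Measurable (fun y : Tor => y - t) := measurable_id.sub_const t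
  have ht' : Measurable (fun y : Tor => y + t) := measurable_id.add_const t
  obtain ⟨π, h3, h4, h5, h6⟩ := exists_coupling μ μ (ρ.map (fun y : Tor => (y - t, y))) (by
    rw [Measure.map_map measurable_fst hm]
    calc ρ.map (fun y => y - t) ≤ (μ.map (fun x => x + t)).map (fun y => y - t) :=
          Measure.map_mono h2 ht
      _ = μ := by
          rw [Measure.map_map ht ht']
          have : (fun y : Tor => y - t) ∘ (fun x => x + t) = id := by
            funext x
            simp
          rw [this, Measure.map_id]) (by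
    rw [Measure.map_map measurable_snd hm]
    have : (Prod.snd ∘ fun y : Tor => (y - t, y)) = id := rfl
    rw [this, Measure.map_id]
    exact h1)
  refine ⟨π, h3, h4, h5, ?_⟩
  have hcl := (Helper26.AG.isClosed_near t 0).measurableSet
  have e : (ρ.map (fun y : Tor => (y - t, y))) {p | ‖p.2 - p.1 - t‖ ≤ 0} = ρ Set.univ := by
    rw [Measure.map_apply hm hcl]
    congr 1
    ext y
    simp
  have h7 : ρ Set.univ ≤ π {p | ‖p.2 - p.1 - t‖ ≤ 0} := by
    rw [← e]
    exact h6 _
  exact ENNReal.toReal_mono (measure_ne_top _ _) h7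

/-- Elements of a finite set which is closed under multiplication by `2` have finite order. -/
theorem order_of_finite {F : Set Tor} (hF : F.Finite) (h2 : ∀ x ∈ F, (2 : ℕ) • x ∈ F) {t : Tor}
    (ht : t ∈ F) : addOrderOf t ≠ 0 := by
  have hinv : ∀ i : ℕ, (2 ^ i : ℕ) • t ∈ F := by
    intro i
    induction i with
    | zero => simpa using ht
    | succ i ih =>
      have := h2 _ ih
      rwa [smul_smul, mul_comm, ← pow_succ] at this
  intro h0
  have hinj : Function.Injective (fun n : ℕ => n • t) :=
    injective_nsmul_iff_not_isOfFinAddOrder.2 (addOrderOf_eq_zero_iff.1 h0)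
  have hinj2 : Function.Injective (fun i : ℕ => (2 ^ i : ℕ) • t) := fun i j hij =>
    Nat.pow_right_injective le_rfl (hinj hij)
  exact (Set.infinite_of_injective_forall_mem hinj2 hinv) hF

/-- **Irrational translates are singular.** -/
theorem singular_translate (μ : Measure Tor) [IsProbabilityMeasure μ]
    (h2 : μ.map (fun x => (2 : ℕ) • x) = μ) (h3 : μ.map (fun x => (3 : ℕ) • x) = μ)
    (hno : ∀ h : ℝ, 0 < h → ¬ ENNReal.ofReal h • (volume : Measure Tor) ≤ μ) (t : Tor)
    (ht : addOrderOf t = 0) : Measure.MutuallySingular (μ.map (fun x => x + t)) μ := by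
  have ht' : Measurable (fun y : Tor => y + t) := measurable_id.add_const t
  have hp : IsProbabilityMeasure (μ.map (fun x => x + t)) :=
    Measure.isProbabilityMeasure_map ht'.aemeasurable
  by_contra hns
  have hρ : (μ.map (fun x => x + t)) ⊓ μ ≠ 0 := fun h0 =>
    hns (Measure.mutuallySingular_of_disjoint (disjoint_iff.2 h0))
  set ρ := (μ.map (fun x => x + t)) ⊓ μ with hρd
  have hρfin : IsFiniteMeasure ρ := ⟨((inf_le_right : ρ ≤ μ) _).trans_lt (measure_lt_top μ _)⟩
  have hpos : 0 < ρ.real Set.univ := by
    rw [Measure.real, ENNReal.toReal_pos_iff]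
    exact ⟨pos_iff_ne_zero.2 fun h => hρ (Measure.measure_univ_eq_zero.1 h), measure_lt_top _ _⟩
  have hpop := pop_of_le μ t ρ inf_le_right inf_le_left
  refine order_of_finite (finite_pop μ h2 h3 _ (hno _ hpos)) (fun x hx => ?_)
    (show t ∈ {t | Pop μ (ρ.real Set.univ) t 0} from hpop) ht
  have := Pop.smul 2 h2 (show Pop μ (ρ.real Set.univ) x 0 from hx)
  rwa [mul_zero] at this

end Pool.Agent.Helper88.AG
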