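import Pool.Agent.Helper88.AG.Sep

/-!
# Separation of translates in terms of dyadic cells
-/

set_option autoImplicit false

open MeasureTheory Filter Topology

namespace Pool.Agent.Helper88.AG

open Helper35.AG (Tor Inv idx measurable_idx idx_lt norm_sub_le_of_idx measurable_real)

theorem sum_real_idx (μ : Measure Tor) [IsProbabilityMeasure μ] (K : ℕ) (y : Tor) (S : Finset ℕ) :
    ∑ i ∈ S, μ.real {x | idx K (x + y) = i} = μ.real {x | idx K (x + y) ∈ S} := by
  have hm : ∀ i : ℕ, MeasurableSet {x : Tor | idx K (x + y) = i} := fun i =>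
    ((measurable_idx K).comp (measurable_id.add_const y)) (measurableSet_singleton i)
  rw [← measureReal_biUnion_finset]
  · congr 1
    ext x
    simp
  · intro i _ j _ hij
    refine Set.disjoint_left.2 fun x hx hx' => hij ?_
    exact hx.symm.trans hx'
  · exact fun i _ => hm i

/-- If the translates of `μ` by `y` and by the centre `z` of a ball are separated then some set of
cells has large mass for `μ` translated by `y`, and small mass for all translates by the points of
the ball. -/
theorem cells_of_sep (μ : Measure Tor) [IsProbabilityMeasure μ] {L h : ℝ} (hL : 0 < L) {z y : Tor}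
    {ρ : ℝ} {K : ℕ} (hs : Sep μ L h (z - y) (ρ + 1 / 2 ^ K)) :
    ∃ S : Finset ℕ, S ⊆ Finset.range (2 ^ K) ∧
      1 - h ≤ ∑ i ∈ S, μ.real {x | idx K (x + y) = i} ∧
      ∀ y' ∈ Metric.closedBall z ρ, ∑ i ∈ S, μ.real {x | idx K (x + y') = i} ≤ h / L := by
  classical
  obtain ⟨E, hE, hlt⟩ := hs
  refine ⟨(Finset.range (2 ^ K)).filter (fun i => ∃ x, idx K x = i ∧ x - y ∈ E),
    Finset.filter_subset _ _, ?_, fun y' hy' => ?_⟩
  · rw [sum_real_idx]
    have h1 : E ⊆ {x | idx K (x + y) ∈
        (Finset.range (2 ^ K)).filter (fun i => ∃ x, idx K x = i ∧ x - y ∈ E)} := by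
      intro x hx
      rw [Set.mem_setOf_eq, Finset.mem_filter]
      exact ⟨Finset.mem_range.2 (idx_lt K _), x + y, rfl, by simpa using hx⟩
    have h2 := measureReal_mono (μ := μ) h1
    have h3 := probReal_compl_eq_one_sub (μ := μ) hE.measurableSet
    have h4 : 0 ≤ L * μ.real (Nb E (z - y) (ρ + 1 / 2 ^ K)) := by positivity
    linarith
  · rw [sum_real_idx, le_div_iff₀ hL]
    have h1 : {x | idx K (x + y') ∈
        (Finset.range (2 ^ K)).filter (fun i => ∃ x, idx K x = i ∧ x - y ∈ E)} ⊆
        Nb E (z - y) (ρ + 1 / 2 ^ K) := by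
      intro x hx
      rw [Set.mem_setOf_eq, Finset.mem_filter] at hx
      obtain ⟨-, x', hx', hmem⟩ := hx
      refine ⟨x' - y, hmem, ?_⟩
      have h5 := norm_sub_le_of_idx hx'
      have e1 : x + (z - y) - (x' - y) = (z - y') - (x' - (x + y')) := by abel
      rw [e1]
      have h6 : ‖z - y'‖ ≤ ρ := by
        rw [← dist_eq_norm, dist_comm]
        exact hy'
      exact (norm_sub_le _ _).trans (add_le_add h6 h5)
    have h2 := measureReal_mono (μ := μ) h1
    have h3 : 0 ≤ μ.real Eᶜ := measureReal_nonneg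
    nlinarith

/-- The averaged form of the upper bound. -/
theorem avg_cells (μ ν : Measure Tor) [IsProbabilityMeasure μ] [IsProbabilityMeasure ν] {K : ℕ}
    {A : Set Tor} (hA : MeasurableSet A) {S : Finset ℕ} {c : ℝ}
    (h : ∀ y' ∈ A, ∑ i ∈ S, μ.real {x | idx K (x + y') = i} ≤ c) :
    ∑ i ∈ S, ∫ y' in A, μ.real {x | idx K (x + y') = i} ∂ν ≤ c * ν.real A := by
  have hint : ∀ i ∈ S, Integrable (fun y' => μ.real {x | idx K (x + y') = i}) (ν.restrict A) := by
    intro i _
    refine Integrable.of_bound (C := 1) ?_ (Eventually.of_forall fun y' => ?_)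
    · exact (measurable_real μ (measurable_idx K (measurableSet_singleton i))).aestronglyMeasurable
    · rw [Real.norm_eq_abs, abs_of_nonneg measureReal_nonneg]
      exact measureReal_le_one
  rw [← integral_finset_sum _ hint]
  calc ∫ y' in A, ∑ i ∈ S, μ.real {x | idx K (x + y') = i} ∂ν ≤ ∫ y' in A, c ∂ν := by
        refine setIntegral_mono_on (integrable_finset_sum _ hint) (integrable_const c) hA h
    _ = c * ν.real A := by
        rw [setIntegral_const, smul_eq_mul, mul_comm]

end Pool.Agent.Helper88.AG
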