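import Pool.Agent.Helper35.AG.Basic
import Pool.Agent.Helper88.AG.Leb
import Pool.Agent.Helper88.AG.Exp
import Pool.Agent.Helper17.Furstenberg

/-!
# Separated translates

`Sep μ L h t r`: some closed set `E` carries `μ` up to `h`, while the translate of `μ` by `t` gives
its neighbourhood of radius `r` a mass which is small compared to `1 / L`.
-/

set_option autoImplicit false

open MeasureTheory Filter Topology

namespace Pool.Agent.Helper88.AG

open Helper35.AG (Tor Inv)

/-- The points `x` for which `x + t` is within `r` of the set `E`. -/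
def Nb (E : Set Tor) (t : Tor) (r : ℝ) : Set Tor := {x | ∃ e ∈ E, ‖x + t - e‖ ≤ r}

/-- `μ` and its translate by `t` are separated at the scale `r`. -/
def Sep (μ : Measure Tor) (L h : ℝ) (t : Tor) (r : ℝ) : Prop :=
  ∃ E : Set Tor, IsClosed E ∧ μ.real Eᶜ + L * μ.real (Nb E t r) < h

theorem isClosed_Nb {E : Set Tor} (hE : IsClosed E) (t : Tor) (r : ℝ) : IsClosed (Nb E t r) := by
  have hK : IsCompact E := hE.isCompact
  have h1 : IsClosed {z : Tor | ∃ e ∈ E, ‖z - e‖ ≤ r} := by
    have h2 : IsClosed {p : Tor × Tor | p.2 ∈ E ∧ ‖p.1 - p.2‖ ≤ r} :=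
      (hE.preimage continuous_snd).inter
        (isClosed_le (continuous_fst.sub continuous_snd).norm continuous_const)
    have h3 : {z : Tor | ∃ e ∈ E, ‖z - e‖ ≤ r} =
        Prod.fst '' {p : Tor × Tor | p.2 ∈ E ∧ ‖p.1 - p.2‖ ≤ r} := by
      ext z
      constructor
      · rintro ⟨e, he, h⟩
        exact ⟨(z, e), ⟨he, h⟩, rfl⟩
      · rintro ⟨⟨z', e⟩, ⟨he, h⟩, rfl⟩
        exact ⟨e, he, h⟩
    rw [h3]
    exact (h2.isCompact.image continuous_fst).isClosed
  exact h1.preimage (continuous_id.add continuous_const)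

theorem Nb_mono {E : Set Tor} {t t' : Tor} {r r' : ℝ} (h : ‖t' - t‖ + r ≤ r') :
    Nb E t r ⊆ Nb E t' r' := by
  rintro x ⟨e, he, hx⟩
  refine ⟨e, he, ?_⟩
  have e1 : x + t' - e = (x + t - e) + (t' - t) := by abel
  rw [e1]
  exact (norm_add_le _ _).trans (by linarith)

theorem Sep.mono {μ : Measure Tor} [IsFiniteMeasure μ] {L h : ℝ} (hL : 0 ≤ L) {t t' : Tor} {r r' : ℝ}
    (hr : ‖t - t'‖ + r' ≤ r) (hs : Sep μ L h t r) : Sep μ L h t' r' := by
  obtain ⟨E, hE, hlt⟩ := hs
  refine ⟨E, hE, lt_of_le_of_lt ?_ hlt⟩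
  have := measureReal_mono (μ := μ) (Nb_mono (E := E) hr)
  have := mul_le_mul_of_nonneg_left this hL
  linarith

/-- Separation of a multiple gives separation. -/
theorem Sep.smul {μ : Measure Tor} [IsFiniteMeasure μ] {L h : ℝ} (hL : 0 ≤ L) (n : ℕ)
    (hn : MeasurePreserving (fun x : Tor => n • x) μ μ) {t : Tor} {r : ℝ}
    (hs : Sep μ L h (n • t) (n * r)) : Sep μ L h t r := by
  obtain ⟨E, hE, hlt⟩ := hs
  have hc : Continuous (fun x : Tor => n • x) := continuous_const_smul n
  refine ⟨(fun x : Tor => n • x) ⁻¹' E, hE.preimage hc, lt_of_le_of_lt ?_ hlt⟩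
  have h1 : μ.real ((fun x : Tor => n • x) ⁻¹' E)ᶜ = μ.real Eᶜ := by
    rw [← Set.preimage_compl]
    exact congrArg ENNReal.toReal (hn.measure_preimage hE.isOpen_compl.measurableSet.nullMeasurableSet)
  have h2 : μ.real (Nb ((fun x : Tor => n • x) ⁻¹' E) t r) ≤ μ.real (Nb E (n • t) (n * r)) := by
    have h3 : μ.real ((fun x : Tor => n • x) ⁻¹' (Nb E (n • t) (n * r))) =
        μ.real (Nb E (n • t) (n * r)) :=
      congrArg ENNReal.toReal (hn.measure_preimage
        (isClosed_Nb hE _ _).measurableSet.nullMeasurableSet)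
    rw [← h3]
    refine measureReal_mono ?_
    rintro x ⟨e, he, hx⟩
    refine ⟨n • e, he, ?_⟩
    have e1 : n • x + n • t - n • e = n • (x + t - e) := by
      rw [smul_sub, smul_add]
    change ‖n • x + n • t - n • e‖ ≤ n * r
    rw [e1]
    exact norm_nsmul_le.trans (mul_le_mul_of_nonneg_left hx (Nat.cast_nonneg n))
  have := mul_le_mul_of_nonneg_left h2 hL
  rw [h1]
  linarith

/-- Masses of closed sets are upper semicontinuous. -/
theorem eventually_lt {ι : Type*} {l : Filter ι} {μs : ι → ProbabilityMeasure Tor}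
    {μ : ProbabilityMeasure Tor} (hμ : Tendsto μs l (𝓝 μ)) {F : Set Tor} (hF : IsClosed F) {c : ℝ}
    (hc : (μ : Measure Tor).real F < c) : ∀ᶠ i in l, (μs i : Measure Tor).real F < c := by
  have h1 := ProbabilityMeasure.limsup_measure_closed_le_of_tendsto hμ hF
  have h2 : (μ : Measure Tor) F < ENNReal.ofReal c := by
    rw [ENNReal.lt_ofReal_iff_toReal_lt (measure_ne_top _ _)]
    exact hc
  have h3 := eventually_lt_of_limsup_lt (h1.trans_lt h2)
  filter_upwards [h3] with i hi
  rw [ENNReal.lt_ofReal_iff_toReal_lt (measure_ne_top _ _)] at hi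
  exact hi

/-- Separation is an open condition. -/
theorem Sep.open {ι : Type*} {l : Filter ι} {μs : ι → ProbabilityMeasure Tor}
    {μ : ProbabilityMeasure Tor} (hμ : Tendsto μs l (𝓝 μ)) {L h : ℝ} (hL : 0 ≤ L) {t : Tor}
    (hs : Sep μ L h t 0) :
    ∃ ε > 0, ∀ᶠ i in l, ∀ t', ‖t' - t‖ ≤ ε → Sep (μs i) L h t' ε := by
  obtain ⟨E, hE, hlt⟩ := hs
  -- a neighbourhood of small mass
  obtain ⟨ρ, hρ, hρlt⟩ : ∃ ρ > 0, (μ : Measure Tor).real Eᶜ +
      L * (μ : Measure Tor).real (Nb E t ρ) < h := by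
    have hA : Antitone fun n : ℕ => Nb E t (1 / ((n : ℝ) + 1)) := by
      intro m n hmn
      refine Nb_mono ?_
      have : 1 / ((n : ℝ) + 1) ≤ 1 / ((m : ℝ) + 1) :=
        one_div_le_one_div_of_le (by positivity) (by exact_mod_cast Nat.succ_le_succ hmn)
      simpa using this
    have hI : ⋂ n : ℕ, Nb E t (1 / ((n : ℝ) + 1)) = Nb E t 0 := by
      apply Set.Subset.antisymm
      · intro x hx
        rw [Set.mem_iInter] at hx
        have hinf : Metric.infDist (x + t) E ≤ 0 := by
          refine le_of_forall_pos_lt_add fun δ hδ => ?_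
          obtain ⟨n, hn⟩ := exists_nat_one_div_lt hδ
          obtain ⟨e, he, hxe⟩ := hx n
          calc Metric.infDist (x + t) E ≤ dist (x + t) e := Metric.infDist_le_dist_of_mem he
            _ = ‖x + t - e‖ := dist_eq_norm _ _
            _ < 0 + δ := by linarith
        have hne : E.Nonempty := by
          obtain ⟨e, he, -⟩ := hx 0
          exact ⟨e, he⟩
        have hmem : x + t ∈ E := by
          rw [hE.mem_iff_infDist_zero hne]
          exact le_antisymm hinf Metric.infDist_nonneg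
        exact ⟨x + t, hmem, by simp⟩
      · refine Set.subset_iInter fun n => Nb_mono ?_
        simp
        positivity
    have hT : Tendsto (fun n : ℕ => (μ : Measure Tor).real (Nb E t (1 / ((n : ℝ) + 1)))) atTop
        (𝓝 ((μ : Measure Tor).real (Nb E t 0))) := by
      have := tendsto_measure_iInter_atTop (μ := (μ : Measure Tor))
        (s := fun n : ℕ => Nb E t (1 / ((n : ℝ) + 1)))
        (fun n => (isClosed_Nb hE _ _).measurableSet.nullMeasurableSet) hA
        ⟨0, measure_ne_top _ _⟩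
      rw [hI] at this
      exact (ENNReal.tendsto_toReal (measure_ne_top _ _)).comp this
    have hT2 := (hT.const_mul L).const_add ((μ : Measure Tor).real Eᶜ)
    have := hT2.eventually (gt_mem_nhds hlt)
    obtain ⟨n, hn⟩ := this.exists
    exact ⟨1 / ((n : ℝ) + 1), by positivity, hn⟩
  set ε := ρ / 4 with hε
  have hε0 : 0 < ε := by positivity
  obtain ⟨κ, hκ0, hκ⟩ : ∃ κ > 0, (μ : Measure Tor).real Eᶜ + κ +
      L * ((μ : Measure Tor).real (Nb E t ρ) + κ) < h := by
    set g := h - ((μ : Measure Tor).real Eᶜ + L * (μ : Measure Tor).real (Nb E t ρ)) with hg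
    have hg0 : 0 < g := by linarith
    refine ⟨g / (2 * (1 + L)), by positivity, ?_⟩
    have h1 : (1 + L) * (g / (2 * (1 + L))) = g / 2 := by
      field_simp
    nlinarith
  -- the closed set of the points far from `E`
  have hF : IsClosed {x : Tor | ∀ e ∈ E, ε ≤ ‖x - e‖} := by
    have : {x : Tor | ∀ e ∈ E, ε ≤ ‖x - e‖} = ⋂ e ∈ E, {x : Tor | ε ≤ ‖x - e‖} := by
      ext x
      simp
    rw [this]
    exact isClosed_biInter fun e _ => isClosed_le continuous_const (by fun_prop)
  have hFE : {x : Tor | ∀ e ∈ E, ε ≤ ‖x - e‖} ⊆ Eᶜ := by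
    intro x hx hxE
    have := hx x hxE
    simp at this
    linarith
  have e1 := eventually_lt hμ hF (c := (μ : Measure Tor).real Eᶜ + κ)
    (lt_of_le_of_lt (measureReal_mono hFE) (by linarith))
  have e2 := eventually_lt hμ (isClosed_Nb hE t ρ) (c := (μ : Measure Tor).real (Nb E t ρ) + κ)
    (by linarith)
  refine ⟨ε, hε0, ?_⟩
  filter_upwards [e1, e2] with i h1 h2 t' ht'
  refine ⟨Nb E 0 ε, isClosed_Nb hE 0 ε, ?_⟩
  have h3 : (Nb E 0 ε)ᶜ ⊆ {x : Tor | ∀ e ∈ E, ε ≤ ‖x - e‖} := by
    intro x hx e he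
    by_contra hc
    exact hx ⟨e, he, by rw [add_zero]; linarith⟩
  have h4 : Nb (Nb E 0 ε) t' ε ⊆ Nb E t ρ := by
    rintro x ⟨y, ⟨e, he, hye⟩, hxy⟩
    refine ⟨e, he, ?_⟩
    rw [add_zero] at hye
    have e1 : x + t - e = (x + t' - y) + (y - e) - (t' - t) := by abel
    rw [e1]
    calc ‖(x + t' - y) + (y - e) - (t' - t)‖ ≤ ‖(x + t' - y) + (y - e)‖ + ‖t' - t‖ := norm_sub_le _ _
      _ ≤ ‖x + t' - y‖ + ‖y - e‖ + ‖t' - t‖ := by gcongr; exact norm_add_le _ _
      _ ≤ ρ := by linarith
  have h5 := measureReal_mono (μ := (μs i : Measure Tor)) h3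
  have h6 := measureReal_mono (μ := (μs i : Measure Tor)) h4
  have h7 : L * (μs i : Measure Tor).real (Nb (Nb E 0 ε) t' ε) ≤
      L * ((μ : Measure Tor).real (Nb E t ρ) + κ) :=
    mul_le_mul_of_nonneg_left (h6.trans h2.le) hL
  linarith

/-- A closed null set is disjoint from almost all its translates, up to a null set of `μ`. -/
theorem exists_null_translate (μ : Measure Tor) [IsFiniteMeasure μ] {E : Set Tor} (hE : MeasurableSet E)
    (h0 : (volume : Measure Tor) E = 0) : ∃ t : Tor, μ {x | x + t ∈ E} = 0 := by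
  have h1 : ((volume : Measure Tor).prod μ) {p | p.2 + p.1 ∈ E} = 0 := by
    have hm : MeasurableSet {p : Tor × Tor | p.2 + p.1 ∈ E} :=
      (measurable_snd.add measurable_fst) hE
    rw [← Measure.prod_swap, Measure.map_apply measurable_swap hm, Measure.measure_prod_null
      (measurable_swap hm)]
    refine Filter.Eventually.of_forall fun x => ?_
    have e : (Prod.mk x ⁻¹' (Prod.swap ⁻¹' {p : Tor × Tor | p.2 + p.1 ∈ E})) =
        (fun t => x + t) ⁻¹' E := by
      ext t
      simp
    simp only [Pi.zero_apply]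
    rw [e, measure_preimage_add]
    exact h0
  have h2 := Measure.measure_ae_null_of_prod_null h1
  obtain ⟨t, ht⟩ := h2.exists
  exact ⟨t, ht⟩

/-- The constant `h`: it works for all `L`. -/
theorem exists_h {μ : Measure Tor} [IsProbabilityMeasure μ] (hμ : Inv μ) (hne : μ ≠ volume) :
    ∃ h : ℝ, 0 < h ∧ h < 1 ∧ ∀ L : ℝ, ∃ t, Sep μ L h t 0 := by
  obtain ⟨a, σ, ha, hfin, hdec, hsing⟩ := decomp μ hμ.two.map_eq
  have hσ : σ ≠ 0 := by
    intro h0
    rw [h0, add_zero] at hdec
    have : a = 1 := by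
      have h1 : μ Set.univ = a * (volume : Measure Tor) Set.univ := by
        rw [hdec]
        simp
      rw [measure_univ, AddCircle.measure_univ, ENNReal.ofReal_one, mul_one] at h1
      exact h1.symm
    rw [this, one_smul] at hdec
    exact hne hdec
  have hb : 0 < σ.real Set.univ := by
    rw [Measure.real, ENNReal.toReal_pos_iff]
    exact ⟨pos_iff_ne_zero.2 fun h => hσ (Measure.measure_univ_eq_zero.1 h), measure_lt_top _ _⟩
  obtain ⟨s, hs, hσs, hvs⟩ := hsing
  have hb1 : σ.real Set.univ ≤ 1 := by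
    have : σ ≤ μ := by
      rw [hdec]
      exact Measure.le_add_left le_rfl
    have h1 : σ.real Set.univ ≤ μ.real Set.univ := ENNReal.toReal_mono (measure_ne_top _ _) (this _)
    simpa using h1
  -- a compact part
  obtain ⟨E, hEs, hEc, hEσ⟩ := hs.compl.exists_isCompact_lt_add (μ := σ) (measure_ne_top _ _)
    (ε := ENNReal.ofReal (σ.real Set.univ / 2)) (by
      rw [Ne, ENNReal.ofReal_eq_zero]
      linarith)
  have hEvol : (volume : Measure Tor) E = 0 := measure_mono_null hEs hvs
  have hσE : σ.real Set.univ / 2 ≤ σ.real E := by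
    have h1 : σ Set.univ ≤ σ sᶜ := by
      calc σ Set.univ ≤ σ s + σ sᶜ := by
            rw [← Set.union_compl_self s]
            exact measure_union_le _ _
        _ = σ sᶜ := by rw [hσs, zero_add]
    have h2 := h1.trans hEσ.le
    have h3 : σ.real Set.univ ≤ σ.real E + σ.real Set.univ / 2 := by
      have := ENNReal.toReal_mono (by finiteness) h2
      rw [ENNReal.toReal_add (measure_ne_top _ _) ENNReal.ofReal_ne_top,
        ENNReal.toReal_ofReal (by positivity)] at this
      exact this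
    linarith
  have hμE : σ.real Set.univ / 2 ≤ μ.real E := by
    have hle : σ ≤ μ := by
      rw [hdec]
      exact Measure.le_add_left le_rfl
    exact hσE.trans (ENNReal.toReal_mono (measure_ne_top _ _) (hle _))
  refine ⟨1 - σ.real Set.univ / 4, by linarith, by linarith, fun L => ?_⟩
  obtain ⟨t, ht⟩ := exists_null_translate μ hEc.measurableSet hEvol
  refine ⟨t, E, hEc.isClosed, ?_⟩
  have h1 : Nb E t 0 = {x | x + t ∈ E} := by
    ext x
    constructor
    · rintro ⟨e, he, hx⟩
      have := norm_le_zero_iff.1 hx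
      rw [sub_eq_zero] at this
      change x + t ∈ E
      rw [this]
      exact he
    · intro hx
      exact ⟨x + t, hx, by simp⟩
  have h2 : μ.real (Nb E t 0) = 0 := by
    rw [h1, Measure.real, ht, ENNReal.toReal_zero]
  rw [h2, mul_zero, add_zero, probReal_compl_eq_one_sub hEc.measurableSet]
  linarith

/-- **Trapping.** Near a measure for which some translate is separated, all translates which are not
separated at the scale `r` are within `O(r)` of a fixed finite set. -/
theorem trap {ι : Type*} {l : Filter ι} {μs : ι → ProbabilityMeasure Tor}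
    {μ : ProbabilityMeasure Tor} (hμ : Tendsto μs l (𝓝 μ)) (hinvs : ∀ i, Inv (μs i : Measure Tor))
    (hinv : Inv (μ : Measure Tor)) {L h : ℝ} (hL : 0 ≤ L) (hex : ∃ t, Sep μ L h t 0) :
    ∃ (F : Set Tor) (B : ℝ), F.Finite ∧ 0 < B ∧ ∀ᶠ i in l, ∀ (t : Tor) (r : ℝ), 0 < r →
      ¬ Sep (μs i) L h t r → ∃ f ∈ F, ‖t - f‖ ≤ B * r := by
  have hcl : IsClosed {t | ¬ Sep (μ : Measure Tor) L h t 0} := by
    rw [← isOpen_compl_iff, Metric.isOpen_iff]
    intro t ht
    have ht' : Sep (μ : Measure Tor) L h t 0 := not_not.1 ht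
    obtain ⟨ε, hε, hev⟩ := Sep.open (l := (⊤ : Filter Unit)) (μs := fun _ => μ)
      (tendsto_const_nhds) hL ht'
    refine ⟨ε, hε, fun t' ht'' => ?_⟩
    have h1 := (Filter.eventually_top.1 hev) () t' (by
      rw [← dist_eq_norm]
      exact (Metric.mem_ball.1 ht'').le)
    exact not_not.2 (Sep.mono hL (by simpa using hε.le) h1)
  have hne : {t | ¬ Sep (μ : Measure Tor) L h t 0} ≠ Set.univ := by
    obtain ⟨t, ht⟩ := hex
    intro hu
    have : t ∈ {t | ¬ Sep (μ : Measure Tor) L h t 0} := by rw [hu]; trivial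
    exact this ht
  have hS2 : ∀ x ∈ {t | ¬ Sep (μ : Measure Tor) L h t 0},
      (2 : ℕ) • x ∈ {t | ¬ Sep (μ : Measure Tor) L h t 0} := by
    intro x hx hsep
    exact hx (Sep.smul hL 2 hinv.two (by rwa [mul_zero]))
  have hS3 : ∀ x ∈ {t | ¬ Sep (μ : Measure Tor) L h t 0},
      (3 : ℕ) • x ∈ {t | ¬ Sep (μ : Measure Tor) L h t 0} := by
    intro x hx hsep
    exact hx (Sep.smul hL 3 hinv.three (by rwa [mul_zero]))
  have hfin : {t | ¬ Sep (μ : Measure Tor) L h t 0}.Finite := by
    by_contra hinf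
    exact hne (Helper17.Furst.furstenberg hcl hS2 hS3 hinf)
  set F := {t | ¬ Sep (μ : Measure Tor) L h t 0} with hF
  obtain ⟨d, hd, hexp⟩ := expand F hfin hS2
  -- the compact set of the points far from `F`
  have hK : IsCompact {t : Tor | ∀ f ∈ F, d ≤ ‖t - f‖} := by
    have : {t : Tor | ∀ f ∈ F, d ≤ ‖t - f‖} = ⋂ f ∈ F, {t : Tor | d ≤ ‖t - f‖} := by
      ext t
      simp
    rw [this]
    exact (isClosed_biInter fun f _ => isClosed_le continuous_const (by fun_prop)).isCompact
  have hKsep : ∀ t ∈ {t : Tor | ∀ f ∈ F, d ≤ ‖t - f‖}, Sep (μ : Measure Tor) L h t 0 := by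
    intro t ht
    by_contra hc
    have := ht t hc
    simp at this
    linarith
  obtain ⟨ε, hε, hunif⟩ : ∃ ε > 0, ∀ᶠ i in l, ∀ t ∈ {t : Tor | ∀ f ∈ F, d ≤ ‖t - f‖},
      Sep (μs i : Measure Tor) L h t ε := by
    refine hK.induction_on (p := fun K => ∃ ε > 0, ∀ᶠ i in l, ∀ t ∈ K,
      Sep (μs i : Measure Tor) L h t ε) ?_ ?_ ?_ ?_
    · exact ⟨1, one_pos, Eventually.of_forall fun i t ht => absurd ht (Set.notMem_empty t)⟩
    · rintro s t hst ⟨ε, hε, h1⟩
      exact ⟨ε, hε, h1.mono fun i hi x hx => hi x (hst hx)⟩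
    · rintro s t ⟨ε, hε, h1⟩ ⟨ε', hε', h2⟩
      refine ⟨min ε ε', lt_min hε hε', ?_⟩
      filter_upwards [h1, h2] with i hi hi' x hx
      rcases hx with hx | hx
      · exact Sep.mono hL (by simp) (hi x hx)
      · exact Sep.mono hL (by simp) (hi' x hx)
    · intro t ht
      obtain ⟨ε, hε, h1⟩ := Sep.open hμ hL (hKsep t ht)
      refine ⟨Metric.ball t ε, mem_nhdsWithin_of_mem_nhds (Metric.ball_mem_nhds t hε), ε, hε, ?_⟩
      filter_upwards [h1] with i hi x hx
      refine hi x ?_
      rw [← dist_eq_norm]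
      exact (Metric.mem_ball.1 hx).le
  refine ⟨insert 0 F, max (2 * d / ε) (1 / ε), hfin.insert 0, by positivity, ?_⟩
  filter_upwards [hunif] with i hi t r hr hns
  rcases le_or_gt r ε with hrε | hrε
  · obtain ⟨f, hf, hft⟩ := hexp d le_rfl ε hε t r hr hrε (fun j hj => by
      have h1 : ¬ Sep (μs i : Measure Tor) L h ((2 ^ j : ℕ) • t) (2 ^ j * r) := by
        intro hsep
        refine hns (Sep.smul hL (2 ^ j) ?_ (by push_cast; exact hsep))
        have hpow : ∀ j : ℕ, MeasurePreserving (fun x : Tor => (2 ^ j : ℕ) • x)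
            (μs i : Measure Tor) (μs i : Measure Tor) := by
          intro j
          induction j with
          | zero =>
            have e : (fun x : Tor => (2 ^ 0 : ℕ) • x) = id := by
              funext x
              simp
            rw [e]
            exact MeasurePreserving.id _
          | succ j ih =>
            have := ih.comp (hinvs i).two
            have e : (fun x : Tor => (2 ^ j : ℕ) • x) ∘ (fun x : Tor => (2 : ℕ) • x) =
                fun x : Tor => (2 ^ (j + 1) : ℕ) • x := by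
              funext x
              simp only [Function.comp]
              rw [smul_smul, ← pow_succ]
            rwa [e] at this
        exact hpow j
      have h2 : ¬ Sep (μs i : Measure Tor) L h ((2 ^ j : ℕ) • t) ε := fun hsep =>
        h1 (Sep.mono hL (by simpa using hj) hsep)
      have h3 : (2 ^ j : ℕ) • t ∉ {t : Tor | ∀ f ∈ F, d ≤ ‖t - f‖} := fun hmem => h2 (hi _ hmem)
      simp only [Set.mem_setOf_eq, not_forall, not_le] at h3
      obtain ⟨f, hf, hft⟩ := h3
      exact ⟨f, hf, hft.le⟩)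
    refine ⟨f, Set.mem_insert_of_mem _ hf, hft.trans ?_⟩
    exact mul_le_mul_of_nonneg_right (le_max_left _ _) hr.le
  · refine ⟨0, Set.mem_insert _ _, ?_⟩
    rw [sub_zero]
    obtain ⟨x, -, hx, hx2⟩ := exists_rep t
    rw [← hx]
    calc |x| ≤ 1 / 2 := hx2
      _ ≤ 1 / ε * r := by
        rw [div_mul_eq_mul_div, le_div_iff₀ hε]
        linarith
      _ ≤ _ := mul_le_mul_of_nonneg_right (le_max_right _ _) hr.le

end Pool.Agent.Helper88.AG
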