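import Pool.Agent.Helper88.AG.Sing2
import Pool.Agent.Helper75.AG.PopUnif
import Pool.Agent.Helper17.TranslM

/-!
# Popular differences are near rationals of bounded denominator
-/

set_option autoImplicit false

open MeasureTheory Filter Topology

namespace Pool.Agent.Helper88.AG

open Helper35.AG (Tor Pop Inv)

/-- A measure which contains `h` times Lebesgue measure has small Fourier coefficients. -/
theorem fourier_le {ρ : Measure Tor} [IsProbabilityMeasure ρ] {h : ℝ} (h0 : 0 ≤ h)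
    (hle : ENNReal.ofReal h • (volume : Measure Tor) ≤ ρ) {m : ℤ} (hm : m ≠ 0) :
    ‖∫ x, fourier m x ∂ρ‖ ≤ 1 - h := by
  have hfin : IsFiniteMeasure (ENNReal.ofReal h • (volume : Measure Tor)) :=
    ⟨(hle _).trans_lt (measure_lt_top ρ _)⟩
  have hadd := Measure.sub_add_cancel_of_le hle
  set σ := ρ - ENNReal.ofReal h • (volume : Measure Tor) with hσ
  have hσfin : IsFiniteMeasure σ := ⟨by
    refine lt_of_le_of_lt ?_ (measure_lt_top ρ Set.univ)
    conv_rhs => rw [← hadd]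
    simp⟩
  have hc : Continuous (fun x : Tor => fourier m x) := (fourier m).continuous
  have hint : ∀ ν : Measure Tor, IsFiniteMeasure ν → Integrable (fun x : Tor => fourier m x) ν := by
    intro ν hν
    refine Integrable.of_bound hc.aestronglyMeasurable (C := 1) (Eventually.of_forall fun x => ?_)
    rw [fourier_apply]
    exact (Circle.norm_coe _).le
  have e1 : ∫ x, fourier m x ∂ρ = ∫ x, fourier m x ∂σ := by
    conv_lhs => rw [← hadd]
    rw [integral_add_measure (hint _ hσfin) (hint _ hfin), integral_smul_measure,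
      Helper17.TranslM.integral_fourier_vol hm, smul_zero, add_zero]
  have e2 : σ.real Set.univ = 1 - h := by
    have h1 : σ.real Set.univ + (ENNReal.ofReal h • (volume : Measure Tor)).real Set.univ =
        ρ.real Set.univ := by
      conv_rhs => rw [← hadd]
      rw [measureReal_add_apply]
    have h2 : (ENNReal.ofReal h • (volume : Measure Tor)).real Set.univ = h := by
      rw [Measure.real, Measure.smul_apply, AddCircle.measure_univ, ENNReal.ofReal_one, smul_eq_mul,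
        mul_one, ENNReal.toReal_ofReal h0]
    have h3 : ρ.real Set.univ = 1 := probReal_univ
    rw [h2, h3] at h1
    linarith
  rw [e1, ← e2]
  refine (norm_integral_le_of_norm_le_const (C := 1) (Eventually.of_forall fun x => ?_)).trans ?_
  · rw [fourier_apply]
    exact (Circle.norm_coe _).le
  · rw [one_mul]

theorem norm_nsmul_of_near {N : ℕ} {t f : Tor} {c r : ℝ} (hf : N • f = 0) (h : ‖t - f‖ ≤ c * r)
    (hc : c ≤ N) (hr : 0 < r) : ‖N • t‖ ≤ N ^ 2 * r := by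
  have h1 : N • t = N • (t - f) := by rw [smul_sub, hf, sub_zero]
  rw [h1]
  calc ‖N • (t - f)‖ ≤ N * ‖t - f‖ := norm_nsmul_le
    _ ≤ N * (N * r) := by
      refine mul_le_mul_of_nonneg_left (h.trans ?_) (Nat.cast_nonneg N)
      exact mul_le_mul_of_nonneg_right hc hr.le
    _ = N ^ 2 * r := by ring

/-- **Uniformly bounded denominators.** -/
theorem unif_tors (ε : ℝ) (hε : 0 < ε) : ∃ h : ℝ, h < 1 ∧ ∃ N : ℕ, 1 ≤ N ∧ ∀ μ : Measure Tor,
    IsProbabilityMeasure μ → Inv μ →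
    (∃ m : ℕ, 1 ≤ m ∧ (m : ℝ) ≤ 1 / ε ∧ ε ≤ ‖∫ x, fourier (m : ℤ) x ∂μ‖) →
    ∀ (t : Tor) (r : ℝ), 0 < r → Pop μ h t r → ‖N • t‖ ≤ N ^ 2 * r := by
  rcases le_or_gt ε 1 with hε1 | hε1
  · obtain ⟨N, hN, H⟩ := Helper75.AG.pop_unif (1 - ε / 2) (ε / 2) (by positivity)
    refine ⟨1 - ε / 2, by linarith, N, hN, fun μ hp hi hm t r hr hpop => ?_⟩
    obtain ⟨m, hm1, hm2, hm3⟩ := hm
    rcases H μ hp hi with ⟨ρ, hρp, -, hρ, hclose⟩ | h1
    · exfalso
      have hm0 : (m : ℤ) ≠ 0 := by exact_mod_cast Nat.one_le_iff_ne_zero.1 hm1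
      have h2 := fourier_le (h := 1 - ε / 2) (by linarith) hρ hm0
      have h3 := hclose (m : ℤ) (by
        rw [Int.cast_natCast, Nat.abs_cast]
        refine hm2.trans ?_
        exact one_div_le_one_div_of_le (by positivity) (by linarith))
      have h4 : ‖∫ x, fourier (m : ℤ) x ∂μ‖ ≤ ‖∫ x, fourier (m : ℤ) x ∂μ - ∫ x, fourier (m : ℤ) x ∂ρ‖ +
          ‖∫ x, fourier (m : ℤ) x ∂ρ‖ := by
        have := norm_add_le (∫ x, fourier (m : ℤ) x ∂μ - ∫ x, fourier (m : ℤ) x ∂ρ)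
          (∫ x, fourier (m : ℤ) x ∂ρ)
        rwa [sub_add_cancel] at this
      linarith
    · obtain ⟨f, hf, hft⟩ := h1 t r hr hpop
      exact norm_nsmul_of_near hf hft le_rfl hr
  · refine ⟨0, one_pos, 1, le_rfl, fun μ hp hi hm t r hr hpop => ?_⟩
    obtain ⟨m, hm1, hm2, hm3⟩ := hm
    exfalso
    have h1 : (1 : ℝ) ≤ m := by exact_mod_cast hm1
    have h2 : (1 : ℝ) ≤ 1 / ε := h1.trans hm2
    rw [le_div_iff₀ hε] at h2
    linarith

/-- **Bounded denominators**, for one measure and all levels. -/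
theorem tors_of_singular {μ : Measure Tor} [IsProbabilityMeasure μ] (hi : Inv μ)
    (hs : Measure.MutuallySingular μ volume) (h : ℝ) (hh : 0 < h) : ∃ N : ℕ, 1 ≤ N ∧
    ∀ (t : Tor) (r : ℝ), 0 < r → Pop μ h t r → ‖N • t‖ ≤ N ^ 2 * r := by
  obtain ⟨M, hM⟩ : ∃ M : ProbabilityMeasure Tor, (M : Measure Tor) = μ := ⟨⟨μ, inferInstance⟩, rfl⟩
  subst hM
  obtain ⟨N, hN, c, hc, hev⟩ := Helper75.AG.trap_tors (μ := M) (ν := fun _ => M)
    tendsto_const_nhds (fun _ => hi) (not_le_of_singular hs h hh)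
  obtain ⟨k, hk⟩ := hev.exists
  have hcn : 1 ≤ ⌈c⌉₊ := Nat.one_le_ceil_iff.2 hc
  refine ⟨N * ⌈c⌉₊, Nat.one_le_iff_ne_zero.2 (Nat.mul_ne_zero (by omega) (by omega)),
    fun t r hr hpop => ?_⟩
  obtain ⟨f, hf, hft⟩ := hk t r hr hpop
  refine norm_nsmul_of_near (c := c) (f := f) ?_ hft ?_ hr
  · rw [mul_comm, mul_smul, hf, smul_zero]
  · refine (Nat.le_ceil c).trans ?_
    exact_mod_cast Nat.le_mul_of_pos_left _ (by omega)

/-- **Uniformly bounded denominators.** -/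
theorem unif_near (ε : ℝ) (hε : 0 < ε) : ∃ h : ℝ, h < 1 ∧ ∃ N : ℕ, 1 ≤ N ∧ ∀ μ : Measure Tor,
    IsProbabilityMeasure μ → Inv μ →
    (∃ m : ℕ, 1 ≤ m ∧ (m : ℝ) ≤ 1 / ε ∧ ε ≤ ‖∫ x, fourier (m : ℤ) x ∂μ‖) →
    ∀ (t : Tor) (r : ℝ), 0 < r → Pop μ h t r →
    ∃ f : Tor, N • f = 0 ∧ ‖t - f‖ ≤ N * r := by
  rcases le_or_gt ε 1 with hε1 | hε1
  · obtain ⟨N, hN, H⟩ := Helper75.AG.pop_unif (1 - ε / 2) (ε / 2) (by positivity)
    refine ⟨1 - ε / 2, by linarith, N, hN, fun μ hp hi hm t r hr hpop => ?_⟩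
    obtain ⟨m, hm1, hm2, hm3⟩ := hm
    rcases H μ hp hi with ⟨ρ, hρp, -, hρ, hclose⟩ | h1
    · exfalso
      have hm0 : (m : ℤ) ≠ 0 := by exact_mod_cast Nat.one_le_iff_ne_zero.1 hm1
      have h2 := fourier_le (h := 1 - ε / 2) (by linarith) hρ hm0
      have h3 := hclose (m : ℤ) (by
        rw [Int.cast_natCast, Nat.abs_cast]
        refine hm2.trans ?_
        exact one_div_le_one_div_of_le (by positivity) (by linarith))
      have h4 : ‖∫ x, fourier (m : ℤ) x ∂μ‖ ≤ ‖∫ x, fourier (m : ℤ) x ∂μ - ∫ x, fourier (m : ℤ) x ∂ρ‖ +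
          ‖∫ x, fourier (m : ℤ) x ∂ρ‖ := by
        have := norm_add_le (∫ x, fourier (m : ℤ) x ∂μ - ∫ x, fourier (m : ℤ) x ∂ρ)
          (∫ x, fourier (m : ℤ) x ∂ρ)
        rwa [sub_add_cancel] at this
      linarith
    · exact h1 t r hr hpop
  · refine ⟨0, one_pos, 1, le_rfl, fun μ hp hi hm t r hr hpop => ?_⟩
    obtain ⟨m, hm1, hm2, hm3⟩ := hm
    exfalso
    have h1 : (1 : ℝ) ≤ m := by exact_mod_cast hm1
    have h2 : (1 : ℝ) ≤ 1 / ε := h1.trans hm2
    rw [le_div_iff₀ hε] at h2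
    linarith

/-- **Bounded denominators**, for one measure and all levels. -/
theorem near_of_singular {μ : Measure Tor} [IsProbabilityMeasure μ] (hi : Inv μ)
    (hs : Measure.MutuallySingular μ volume) (h : ℝ) (hh : 0 < h) : ∃ N : ℕ, 1 ≤ N ∧
    ∀ (t : Tor) (r : ℝ), 0 < r → Pop μ h t r →
      ∃ f : Tor, N • f = 0 ∧ ‖t - f‖ ≤ N * r := by
  obtain ⟨M, hM⟩ : ∃ M : ProbabilityMeasure Tor, (M : Measure Tor) = μ := ⟨⟨μ, inferInstance⟩, rfl⟩
  subst hM
  obtain ⟨N, hN, c, hc, hev⟩ := Helper75.AG.trap_tors (μ := M) (ν := fun _ => M)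
    tendsto_const_nhds (fun _ => hi) (not_le_of_singular hs h hh)
  obtain ⟨k, hk⟩ := hev.exists
  have hcn : 1 ≤ ⌈c⌉₊ := Nat.one_le_ceil_iff.2 hc
  refine ⟨N * ⌈c⌉₊, Nat.one_le_iff_ne_zero.2 (Nat.mul_ne_zero (by omega) (by omega)),
    fun t r hr hpop => ?_⟩
  obtain ⟨f, hf, hft⟩ := hk t r hr hpop
  refine ⟨f, ?_, hft.trans (mul_le_mul_of_nonneg_right ?_ hr.le)⟩
  · rw [mul_comm, mul_smul, hf, smul_zero]
  · refine (Nat.le_ceil c).trans ?_
    exact_mod_cast Nat.le_mul_of_pos_left _ (by omega)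

end Pool.Agent.Helper88.AG
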