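import Pool.Agent.Helper35.AG.Basic
import Pool.Agent.Helper88.AG.Sing

/-!
# Irrational translates of a singular invariant measure are singular
-/

set_option autoImplicit false

open MeasureTheory

namespace Pool.Agent.Helper88.AG

open Helper35.AG (Tor Pop Inv)

theorem not_le_of_singular {μ : Measure Tor} (hs : Measure.MutuallySingular μ volume) (h : ℝ)
    (hh : 0 < h) : ¬ ENNReal.ofReal h • (volume : Measure Tor) ≤ μ := by
  intro hle
  obtain ⟨s, hsm, hs1, hs2⟩ := hs
  have h1 : ENNReal.ofReal h * (volume : Measure Tor) s ≤ μ s := by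
    have := hle s
    simpa [Measure.smul_apply, smul_eq_mul] using this
  rw [hs1, nonpos_iff_eq_zero, mul_eq_zero] at h1
  have h2 : (volume : Measure Tor) s = 0 := by
    rcases h1 with h1 | h1
    · rw [ENNReal.ofReal_eq_zero] at h1
      linarith
    · exact h1
  have h3 : (volume : Measure Tor) Set.univ = 0 := by
    rw [← Set.union_compl_self s]
    exact measure_union_null h2 hs2
  rw [AddCircle.measure_univ, ENNReal.ofReal_one] at h3
  exact one_ne_zero h3

theorem dich {μ : Measure Tor} [IsProbabilityMeasure μ] (hμ : Inv μ)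
    (hs : Measure.MutuallySingular μ volume) (h : ℝ) (hh : 0 < h) : {t | Pop μ h t 0}.Finite :=
  finite_pop μ hμ.two.map_eq hμ.three.map_eq h (not_le_of_singular hs h hh)

theorem sing {μ : Measure Tor} [IsProbabilityMeasure μ] (hμ : Inv μ)
    (hs : Measure.MutuallySingular μ volume) {t : Tor} (ht : addOrderOf t = 0) :
    Measure.MutuallySingular (μ.map (fun x => x + t)) μ :=
  singular_translate μ hμ.two.map_eq hμ.three.map_eq (not_le_of_singular hs) t ht

end Pool.Agent.Helper88.AG
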